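import Pool.Agent.H16.Sat2

set_option autoImplicit false

namespace Pool.Agent.Results.MP_865e4a_co.No

open Filter Asymptotics Finset Function Pool.Agent.H16.Sat

/-- `H` with edge labels `L` e-semisaturates `G` with edge labels `l`: adding any non-edge `uv`
with any new label `t` creates an order-respecting copy of `G` that uses the edge `uv`. -/
def Semisat {k n : ℕ} (G : SimpleGraph (Fin k)) (l : Sym2 (Fin k) → ℝ)
    (H : SimpleGraph (Fin n)) (L : Sym2 (Fin n) → ℝ) : Prop :=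
  ∀ u v : Fin n, u ≠ v → ¬ H.Adj u v → ∀ t : ℝ, t ∉ L '' H.edgeSet →
    ∃ φ : Fin k ↪ Fin n, (∀ e ∈ G.edgeSet, e.map φ ∈ insert s(u, v) H.edgeSet) ∧
      (∃ e ∈ G.edgeSet, e.map φ = s(u, v)) ∧
      ∀ e ∈ G.edgeSet, ∀ e' ∈ G.edgeSet, l e < l e' →
        update L s(u, v) t (e.map φ) < update L s(u, v) t (e'.map φ)

/-- The least number of edges of an `n`-vertex edge-ordered graph that e-semisaturates `G`. -/
noncomputable def ssat {k : ℕ} (G : SimpleGraph (Fin k)) (l : Sym2 (Fin k) → ℝ) (n : ℕ) : ℕ :=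
  sInf {m | ∃ (H : SimpleGraph (Fin n)) (L : Sym2 (Fin n) → ℝ),
    Set.InjOn L H.edgeSet ∧ Semisat G l H L ∧ H.edgeSet.ncard = m}

theorem main {k : ℕ} (G : SimpleGraph (Fin k)) (l : Sym2 (Fin k) → ℝ) (hG : G ≠ ⊥) (m : ℕ)
    (hm : 0 < m) (N0 : ℕ) :
    ∃ n M, N0 ≤ n ∧ 2 ^ (M * m) ≤ n ∧ ssat G l n ≤ 8 * k * M * n := by
  classical
  have hne : G.edgeSet.Nonempty := SimpleGraph.edgeSet_nonempty.2 hG
  obtain ⟨e0, he0, hmin⟩ := Set.exists_min_image _ l (Set.toFinite _) hne
  obtain ⟨e1, he1, hmax⟩ := Set.exists_max_image _ l (Set.toFinite _) hne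
  have hab : ∀ σ : Bool, ∃ a b, G.Adj a b ∧ s(a, b) = if σ = true then e0 else e1 := by
    intro σ
    induction e0 using Sym2.ind with | _ a b => ?_
    induction e1 using Sym2.ind with | _ c d => ?_
    cases σ
    · exact ⟨c, d, he1, rfl⟩
    · exact ⟨a, b, he0, rfl⟩
  choose a b hab1 hab2 using hab
  let ρ : Sym2 (Fin k) → ℕ := fun e => (univ.filter fun e' => l e' < l e).card
  have hρ : ∀ e e', l e < l e' → ρ e < ρ e' := fun e e' h => card_lt_card
    ⟨fun x hx => mem_filter.2 ⟨mem_univ _, (mem_filter.1 hx).2.trans h⟩,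
      fun hs => lt_irrefl _ (mem_filter.1 (hs (mem_filter.2 ⟨mem_univ e, h⟩))).2⟩
  set B := Fintype.card (Sym2 (Fin k))
  have hB : ∀ e, ρ e < B := fun e => card_lt_card
    ⟨subset_univ _, fun hs => lt_irrefl _ (mem_filter.1 (hs (mem_univ e))).2⟩
  obtain ⟨W, _, g, M, h1, h2, h3, h4⟩ := hubs (fun i j => ρ s(i, j))
    (fun i j => by rw [Sym2.eq_swap]) B m (fun _ _ => hB _) hm
    (Fintype.one_lt_card_iff.2 ⟨_, _, (hab1 true).ne⟩) N0
  choose f hf using fun σ => h4 (a σ) (b σ)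
  let U := Fin m → Fin M → Bool
  let off : Bool → ℕ := fun σ => if σ = true then B ^ m + 1 else 0
  set n := Fintype.card (U ⊕ Bool × W) with hn
  let E : (U ⊕ Bool × W) ≃ Fin n := Fintype.equivFin _
  have hn' : n = 2 ^ (M * m) + 2 * Fintype.card W := by simp [hn, U, pow_mul]
  obtain ⟨L, L1, L2⟩ := tie (β := Sym2 (Fin n)) (Sym2.lift
    ⟨fun x y => base off f g (E.symm x) (E.symm y), fun x y => base_comm off f h3 _ _⟩)
  let H : SimpleGraph (Fin n) := SimpleGraph.fromRel fun x _ => (E.symm x).isRight = true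
  have key : ∀ (u v : U) (t : ℝ) (σ : Bool), u ≠ v → (σ = true ↔ t < (B ^ m : ℕ) + 1) →
      Good g (fun i j => ρ s(i, j)) B (B ^ m) (a σ) (b σ) (f σ u) (f σ v) →
      ∀ z, z = s(E (.inl u), E (.inl v)) →
      ∃ φ : Fin k ↪ Fin n, (∀ e ∈ G.edgeSet, e.map φ ∈ insert z H.edgeSet) ∧
        (∃ e ∈ G.edgeSet, e.map φ = z) ∧ ∀ e ∈ G.edgeSet, ∀ e' ∈ G.edgeSet, l e < l e' →
          update L z t (e.map φ) < update L z t (e'.map φ) := by
    intro u v t σ huv hσ hgood z hz
    obtain ⟨φ, x0, q, c1, c2, c3, c4, c5⟩ := copy off f h3 ρ B _ (hab1 σ).ne σ huv hgood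
    let Φ : Fin k ↪ Fin n := ⟨E ∘ φ, E.injective.comp c1⟩
    have d0 : Sym2.map Φ s(a σ, b σ) = z := by
      rw [hz, ← c2, ← c3]; rfl
    have d1 : ∀ e ∈ G.edgeSet, e ≠ s(a σ, b σ) → e.map Φ ∈ H.edgeSet ∧
        update L z t (e.map Φ) = L (e.map Φ) ∧
        ((off σ + x0 + ρ e * q : ℕ) : ℝ) ≤ L (e.map Φ) ∧
        L (e.map Φ) < ((off σ + x0 + ρ e * q + q : ℕ) : ℝ) := by
      intro e he hne
      refine ⟨?_, update_of_ne (fun h => hne (Sym2.map.injective Φ.injective (h.trans d0.symm)))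
        _ _, ?_⟩ <;> induction e using Sym2.ind with | _ i j => ?_
      · have := (c5 i j (G.ne_of_adj he) hne).1
        simpa [H, Φ, c1.eq_iff, G.ne_of_adj he] using this
      · obtain ⟨-, p1, p2⟩ := c5 i j (G.ne_of_adj he) hne
        obtain ⟨p3, p4⟩ := L2 (Sym2.map Φ s(i, j))
        have p5 : Sym2.lift ⟨fun x y => base off f g (E.symm x) (E.symm y),
          fun x y => base_comm off f h3 _ _⟩ (Sym2.map Φ s(i, j)) = base off f g (φ i) (φ j) := by
          simp [Φ]
        rw [p5] at p3 p4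
        exact ⟨le_trans (by exact_mod_cast p1) p3, lt_of_lt_of_le p4 (by exact_mod_cast p2)⟩
    refine ⟨Φ, fun e he => ?_, ⟨_, hab1 σ, d0⟩, fun e he e' he' hl => ?_⟩
    · by_cases h : e = s(a σ, b σ)
      · exact Or.inl (h ▸ d0)
      · exact Or.inr (d1 e he h).1
    · by_cases h : e = s(a σ, b σ)
      · have h' : e' ≠ s(a σ, b σ) := fun h' => hl.ne (by rw [h, h'])
        obtain ⟨-, p1, p2, -⟩ := d1 e' he' h'
        rw [p1, h, d0, update_self]
        cases σ
        · exact absurd hl (not_lt.2 (by rw [h, hab2]; exact hmax e' he'))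
        · refine lt_of_lt_of_le (hσ.1 rfl) (le_trans ?_ p2)
          have : B ^ m + 1 ≤ off true + x0 + ρ e' * q := by simp only [off, if_true]; omega
          exact_mod_cast this
      · obtain ⟨-, p1, -, p2⟩ := d1 e he h
        by_cases h' : e' = s(a σ, b σ)
        · rw [p1, h', d0, update_self]
          cases σ
          · refine lt_of_lt_of_le p2 (le_trans ?_ (not_lt.1 fun h => Bool.false_ne_true (hσ.2 h)))
            have := hB e
            have : off false + x0 + ρ e * q + q ≤ B ^ m + 1 := by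
              simp only [off, Bool.false_eq_true, if_false]; nlinarith
            exact_mod_cast this
          · exact absurd hl (not_lt.2 (by rw [h', hab2]; exact hmin e he))
        · obtain ⟨-, p3, p4, -⟩ := d1 e' he' h'
          rw [p1, p3]
          refine lt_of_lt_of_le p2 (le_trans ?_ p4)
          have := hρ e e' hl
          have : off σ + x0 + ρ e * q + q ≤ off σ + x0 + ρ e' * q := by nlinarith
          exact_mod_cast this
  have hS : Semisat G l H L := by
    intro x y hxy hna t _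
    obtain ⟨x, rfl⟩ := E.surjective x
    obtain ⟨y, rfl⟩ := E.surjective y
    rcases x with u | p
    · rcases y with v | p
      · have huv : u ≠ v := fun h => hxy (by rw [h])
        rcases hf (decide (t < (B ^ m : ℕ) + 1)) u v huv with h | h
        · exact key u v t _ huv decide_eq_true_iff h _ rfl
        · exact key v u t _ huv.symm decide_eq_true_iff h _ Sym2.eq_swap
      · exact absurd (by simp [H]) hna
    · exact absurd ((SimpleGraph.fromRel_adj _ _ _).2 ⟨hxy, Or.inl (by simp)⟩) hna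
  have hp := Nat.zero_le (2 ^ (M * m))
  have hle : ssat G l n ≤ H.edgeSet.ncard := Nat.sInf_le ⟨H, L, L1.injOn, hS, rfl⟩
  refine ⟨n, M, by omega, by omega, hle.trans ?_⟩
  have hsub : H.edgeSet ⊆ Set.range fun p : (Bool × W) × Fin n => s(E (.inr p.1), p.2) := by
    intro e he
    induction e using Sym2.ind with | _ x y => ?_
    have he' : x ≠ y ∧ ((E.symm x).isRight = true ∨ (E.symm y).isRight = true) := he
    rcases he'.2 with h | h
    · obtain ⟨p, hp⟩ := Sum.isRight_iff.1 h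
      exact ⟨(p, y), by simp [← hp]⟩
    · obtain ⟨p, hp⟩ := Sum.isRight_iff.1 h
      exact ⟨(p, x), by simp [← hp]⟩
  refine (Set.ncard_le_ncard hsub).trans ?_
  rw [← Set.image_univ]
  refine (Set.ncard_image_le Set.finite_univ).trans ?_
  rw [Set.ncard_univ, Nat.card_eq_fintype_card]
  simp only [Fintype.card_prod, Fintype.card_fin, Fintype.card_bool] at h2 ⊢
  exact Nat.mul_le_mul_right _ (by nlinarith)

theorem small {k : ℕ} (G : SimpleGraph (Fin k)) (l : Sym2 (Fin k) → ℝ) (hG : G ≠ ⊥) (ε : ℝ)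
    (hε : 0 < ε) : ∃ᶠ n : ℕ in atTop, (ssat G l n : ℝ) ≤ ε * (n * Real.log n) := by
  have h2 := Real.log_pos one_lt_two
  obtain ⟨m, hm⟩ := exists_nat_gt (8 * k / (ε * Real.log 2))
  have hm0 : 0 < m := by
    have : (0 : ℝ) < m := lt_of_le_of_lt (by positivity) hm
    exact_mod_cast this
  rw [div_lt_iff₀ (by positivity)] at hm
  refine frequently_atTop.2 fun N0 => ?_
  obtain ⟨n, M, h3, h4, h5⟩ := main G l hG m hm0 N0
  refine ⟨n, h3, ?_⟩
  have h6 : (M * m : ℕ) * Real.log 2 ≤ Real.log n := by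
    rw [← Real.log_pow]
    exact Real.log_le_log (by positivity) (by exact_mod_cast h4)
  have h7 : (ssat G l n : ℝ) ≤ 8 * k * M * n := by exact_mod_cast h5
  push_cast at h6
  calc (ssat G l n : ℝ) ≤ 8 * k * (M * n) := by linarith
    _ ≤ m * (ε * Real.log 2) * (M * n) := by gcongr
    _ = ε * (n * (M * m * Real.log 2)) := by ring
    _ ≤ _ := by gcongr

theorem empty {k : ℕ} (l : Sym2 (Fin k) → ℝ) (n : ℕ) : ssat ⊥ l n = n.choose 2 := by
  classical
  have h0 : (⊤ : SimpleGraph (Fin n)).edgeSet.ncard = n.choose 2 := by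
    rw [Set.ncard_eq_toFinset_card']
    simpa using SimpleGraph.card_edgeFinset_top_eq_card_choose_two (V := Fin n)
  obtain ⟨L0, hL0, -⟩ := tie (β := Sym2 (Fin n)) 0
  obtain ⟨H, L, -, h1, h2⟩ := Nat.sInf_mem (s := {m | ∃ (H : SimpleGraph (Fin n))
    (L : Sym2 (Fin n) → ℝ), Set.InjOn L H.edgeSet ∧ Semisat ⊥ l H L ∧ H.edgeSet.ncard = m})
    ⟨_, ⊤, L0, hL0.injOn, fun u v h h' => absurd h h', rfl⟩
  have : H = ⊤ := by
    refine eq_top_iff.2 fun u v h => by_contra fun h' => ?_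
    obtain ⟨t, -, ht⟩ := Set.infinite_univ.exists_notMem_finite ((Set.toFinite H.edgeSet).image L)
    obtain ⟨φ, -, ⟨e, he, -⟩, -⟩ := h1 u v h h' t ht
    simp at he
  rw [← h0, ← this]
  exact h2.symm

theorem both (k : ℕ) (G : SimpleGraph (Fin k)) (l : Sym2 (Fin k) → ℝ)
    (_hl : Set.InjOn l G.edgeSet) :
    (G ≠ ⊥ → ∀ ε : ℝ, 0 < ε → ∃ᶠ n : ℕ in atTop, (ssat G l n : ℝ) ≤ ε * (n * Real.log n)) ∧
      ¬ (fun n : ℕ => (ssat G l n : ℝ)) =Θ[atTop] fun n : ℕ => (n : ℝ) * Real.log n := by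
  refine ⟨small G l, fun h => ?_⟩
  by_cases hG : G = ⊥
  · subst hG
    have h1 : (fun n : ℕ => (n : ℝ) * Real.log n) =o[atTop] fun n : ℕ => (n : ℝ) * n :=
      (isBigO_refl _ _).mul_isLittleO
        (Real.isLittleO_log_id_atTop.comp_tendsto tendsto_natCast_atTop_atTop)
    obtain ⟨n, h2, h3⟩ := (((h.1.trans_isLittleO h1).bound (c := 1 / 8) (by norm_num)).and
      (eventually_ge_atTop 2)).exists
    have h4 : (2 : ℝ) ≤ n := by exact_mod_cast h3
    rw [empty, Nat.cast_choose_two, Real.norm_of_nonneg (by nlinarith),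
      Real.norm_of_nonneg (by positivity)] at h2
    nlinarith
  · obtain ⟨C, hC, h1⟩ := h.2.exists_pos
    obtain ⟨n, h2, h3, h4⟩ := ((small G l hG (1 / (2 * C)) (by positivity)).and_eventually
      (h1.bound.and (eventually_ge_atTop 2))).exists
    have h5 : (2 : ℝ) ≤ n := by exact_mod_cast h4
    have h6 : 0 < (n : ℝ) * Real.log n := mul_pos (by linarith) (Real.log_pos (by linarith))
    rw [Real.norm_of_nonneg h6.le, Real.norm_of_nonneg (by positivity)] at h3
    have h7 := mul_le_mul_of_nonneg_left h2 hC.le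
    have h8 : C * (1 / (2 * C) * (n * Real.log n)) = n * Real.log n / 2 := by field_simp
    linarith

theorem result (k : ℕ) (G : SimpleGraph (Fin k)) (l : Sym2 (Fin k) → ℝ)
    (hl : Set.InjOn l G.edgeSet) :
    ¬ (fun n : ℕ => (ssat G l n : ℝ)) =Θ[atTop] fun n : ℕ => (n : ℝ) * Real.log n :=
  (both k G l hl).2

end Pool.Agent.Results.MP_865e4a_co.No
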